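import Pool.Agent.Helper35.GR.Defs2

/-!
# P6a: compactness in space (MP_114a94_gt)

Ultralimits of smooth functions with locally bounded derivatives are smooth, and all derivatives
converge.
-/

set_option autoImplicit false

open scoped ContDiff Topology NNReal
open Set Filter MeasureTheory

namespace Pool.Agent.GR

open Pool.Agent.Helper25.GrimReaper

variable {n : ℕ}

/-- operator norm of a functional given by its coordinates -/
lemma P6_norm_le (φ : E n →L[ℝ] ℝ) {C : ℝ} (h : ∀ i, |φ (ee i)| ≤ C) : ‖φ‖ ≤ n * C := by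
  refine ContinuousLinearMap.opNorm_le_bound _ ?_ fun v => ?_
  · rcases Nat.eq_zero_or_pos n with rfl | hn
    · simp
    · have := (abs_nonneg _).trans (h ⟨0, hn⟩)
      positivity
  · rw [← sum_basis φ v, Real.norm_eq_abs]
    calc |∑ i, v i * φ (EuclideanSpace.single i (1 : ℝ))|
        ≤ ∑ i, |v i * φ (EuclideanSpace.single i (1 : ℝ))| := Finset.abs_sum_le_sum_abs _ _
      _ ≤ ∑ _i : Fin n, C * ‖v‖ := by
          refine Finset.sum_le_sum fun i _ => ?_
          rw [abs_mul, mul_comm]
          refine mul_le_mul (h i) ?_ (abs_nonneg _) ((abs_nonneg _).trans (h i))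
          rw [← Real.norm_eq_abs]
          exact PiLp.norm_apply_le v i
      _ = n * C * ‖v‖ := by
          rw [Finset.sum_const, Finset.card_univ, Fintype.card_fin, nsmul_eq_mul]
          ring

/-- First order mean value inequality. -/
lemma P6_lip {F : E n → ℝ} {s : Set (E n)} (hs : Convex ℝ s)
    (hF : ∀ z ∈ s, DifferentiableAt ℝ F z) {C : ℝ} (hC : ∀ z ∈ s, ∀ i, |pd i F z| ≤ C)
    {x y : E n} (hx : x ∈ s) (hy : y ∈ s) : |F y - F x| ≤ n * C * ‖y - x‖ :=
  hs.norm_image_sub_le_of_norm_fderiv_le hF (fun z hz => P6_norm_le _ (hC z hz)) hx hy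

/-- Second order Taylor estimate. -/
lemma P6_taylor {F : E n → ℝ} {x : E n} {r : ℝ}
    (hF : ∀ z ∈ Metric.ball x r, ContDiffAt ℝ 2 F z) {C : ℝ}
    (hC : ∀ z ∈ Metric.ball x r, ∀ k i, |pd k (pd i F) z| ≤ C) {y : E n}
    (hy : y ∈ Metric.ball x r) :
    |F y - F x - ∑ i, (y - x) i * pd i F x| ≤ n * (n * C) * ‖y - x‖ ^ 2 := by
  have hxb : x ∈ Metric.ball x r := by
    rw [Metric.mem_ball, dist_self]
    exact lt_of_le_of_lt dist_nonneg (Metric.mem_ball.mp hy)
  have hsub : Metric.closedBall x ‖y - x‖ ⊆ Metric.ball x r := by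
    intro z hz
    rw [Metric.mem_closedBall] at hz
    rw [Metric.mem_ball, dist_eq_norm] at hy
    rw [Metric.mem_ball]
    exact lt_of_le_of_lt hz hy
  have hyc : y ∈ Metric.closedBall x ‖y - x‖ := by
    rw [Metric.mem_closedBall, dist_eq_norm]
  have hxc : x ∈ Metric.closedBall x ‖y - x‖ := by
    rw [Metric.mem_closedBall, dist_self]; exact norm_nonneg _
  have hlip : ∀ z ∈ Metric.closedBall x ‖y - x‖, ∀ i,
      |(fderiv ℝ F z - fderiv ℝ F x) (ee i)| ≤ n * C * ‖y - x‖ := by
    intro z hz i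
    have h1 : |pd i F z - pd i F x| ≤ n * C * ‖z - x‖ :=
      P6_lip (convex_ball x r)
        (fun z' hz' => (contDiffAt_pd (m := 1) (hF z' hz') i).differentiableAt (by norm_num))
        (fun z' hz' k => hC z' hz' k i) hxb (hsub hz)
    have h2 : ‖z - x‖ ≤ ‖y - x‖ := by
      rw [Metric.mem_closedBall, dist_eq_norm] at hz; exact hz
    have h3 : 0 ≤ (n : ℝ) * C := by
      have := (abs_nonneg _).trans (hC x hxb i i)
      positivity
    exact h1.trans (mul_le_mul_of_nonneg_left h2 h3)
  have hmv := (convex_closedBall x ‖y - x‖).norm_image_sub_le_of_norm_fderiv_le'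
    (f := F) (φ := fderiv ℝ F x) (C := n * (n * C * ‖y - x‖))
    (fun z hz => (hF z (hsub hz)).differentiableAt (by norm_num))
    (fun z hz => P6_norm_le _ (hlip z hz)) hxc hyc
  rw [fderiv_apply_eq_sum, Real.norm_eq_abs] at hmv
  refine hmv.trans (le_of_eq ?_)
  ring

/-- The functional with given coordinates. -/
noncomputable def P6_L (b : Fin n → ℝ) : E n →L[ℝ] ℝ :=
  ∑ i, b i • (EuclideanSpace.proj i : E n →L[ℝ] ℝ)

lemma P6_L_apply (b : Fin n → ℝ) (v : E n) : P6_L b v = ∑ i, v i * b i := by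
  unfold P6_L
  rw [sum_apply]
  exact Finset.sum_congr rfl fun i _ => by simp [mul_comm]

lemma P6_L_ee (b : Fin n → ℝ) (i : Fin n) : P6_L b (ee i) = b i := by
  rw [P6_L_apply, Finset.sum_eq_single i]
  · simp
  · intro j _ hj; simp [hj]
  · intro h; exact absurd (Finset.mem_univ i) h

theorem ultralim_smooth {Ω : Set (E n)} (hΩ : IsOpen Ω) (𝒰 : Ultrafilter ℕ)
    (f : ℕ → E n → ℝ) (hf : ∀ᶠ j in (𝒰 : Filter ℕ), ContDiffOn ℝ ∞ (f j) Ω)
    (hb : ∀ w : List (Fin n), ∀ K ⊆ Ω, IsCompact K → ∃ C : ℝ, ∀ᶠ j in (𝒰 : Filter ℕ),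
      ∀ x ∈ K, |Dw w (f j) x| ≤ C) :
    ∃ g : E n → ℝ, ContDiffOn ℝ ∞ g Ω ∧
      ∀ w : List (Fin n), ∀ x ∈ Ω, Tendsto (fun j => Dw w (f j) x) 𝒰 (𝓝 (Dw w g x)) := by
  classical
  -- pointwise limits
  have hlim : ∀ (w : List (Fin n)) (x : E n), ∃ y : ℝ, x ∈ Ω →
      Tendsto (fun j => Dw w (f j) x) 𝒰 (𝓝 y) := by
    intro w x
    by_cases hx : x ∈ Ω
    · obtain ⟨C, hC⟩ := hb w {x} (by simpa using hx) isCompact_singleton
      have h1 : ((𝒰.map (fun j => Dw w (f j) x) : Ultrafilter ℝ) : Filter ℝ) ≤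
          𝓟 (Icc (-C) C) := by
        rw [Ultrafilter.coe_map, Filter.le_principal_iff, Filter.mem_map]
        filter_upwards [hC] with j hj
        exact abs_le.mp (hj x rfl)
      obtain ⟨y, -, hy⟩ := isCompact_Icc.ultrafilter_le_nhds _ h1
      exact ⟨y, fun _ => by rw [Ultrafilter.coe_map] at hy; exact hy⟩
    · exact ⟨0, fun h => absurd h hx⟩
  choose a ha using hlim
  -- differentiability of the limits
  have hder : ∀ (w : List (Fin n)), ∀ x ∈ Ω, HasFDerivAt (a w) (P6_L (fun i => a (i :: w) x)) x := by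
    intro w x hx
    obtain ⟨r, hr, hrΩ⟩ := Metric.nhds_basis_closedBall.mem_iff.mp (hΩ.mem_nhds hx)
    have hcomp : IsCompact (Metric.closedBall x r) := isCompact_closedBall x r
    have hC : ∃ C : ℝ, ∀ᶠ j in (𝒰 : Filter ℕ), ∀ z ∈ Metric.closedBall x r, ∀ k i : Fin n,
        |Dw (k :: i :: w) (f j) z| ≤ C := by
      choose Ck hCk using fun k i : Fin n => hb (k :: i :: w) (Metric.closedBall x r) hrΩ hcomp
      refine ⟨∑ k, ∑ i, |Ck k i|, ?_⟩
      have hall : ∀ᶠ j in (𝒰 : Filter ℕ), ∀ k i : Fin n, ∀ z ∈ Metric.closedBall x r,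
          |Dw (k :: i :: w) (f j) z| ≤ Ck k i := by
        rw [Filter.eventually_all]
        intro k
        rw [Filter.eventually_all]
        intro i
        exact hCk k i
      filter_upwards [hall] with j hj z hz k i
      refine (hj k i z hz).trans ((le_abs_self _).trans ?_)
      refine le_trans ?_ (Finset.single_le_sum (f := fun k => ∑ i, |Ck k i|)
        (fun k _ => Finset.sum_nonneg fun i _ => abs_nonneg _) (Finset.mem_univ k))
      exact Finset.single_le_sum (f := fun i => |Ck k i|) (fun i _ => abs_nonneg _)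
        (Finset.mem_univ i)
    obtain ⟨C, hC⟩ := hC
    have hest : ∀ y ∈ Metric.ball x r, |a w y - a w x - P6_L (fun i => a (i :: w) x) (y - x)| ≤
        n * (n * C) * ‖y - x‖ ^ 2 := by
      intro y hy
      have hyΩ : y ∈ Ω := hrΩ (Metric.ball_subset_closedBall hy)
      have t1 : Tendsto (fun j => |Dw w (f j) y - Dw w (f j) x -
          ∑ i, (y - x) i * pd i (Dw w (f j)) x|) 𝒰
          (𝓝 |a w y - a w x - P6_L (fun i => a (i :: w) x) (y - x)|) := by
        rw [P6_L_apply]
        refine Tendsto.abs (((ha w y hyΩ).sub (ha w x hx)).sub ?_)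
        exact tendsto_finsetSum _ fun i _ => (ha (i :: w) x hx).const_mul _
      refine le_of_tendsto t1 ?_
      filter_upwards [hC, hf] with j hj hfj
      refine P6_taylor (F := Dw w (f j)) (x := x) (r := r) ?_ ?_ hy
      · intro z hz
        have hzΩ : z ∈ Ω := hrΩ (Metric.ball_subset_closedBall hz)
        exact (contDiffAt_Dw (hfj.contDiffAt (hΩ.mem_nhds hzΩ)) w).of_le (by norm_cast)
      · intro z hz k i
        exact hj z (Metric.ball_subset_closedBall hz) k i
    have hO : (fun y => a w y - a w x - P6_L (fun i => a (i :: w) x) (y - x)) =O[𝓝 x]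
        fun y => ‖y - x‖ ^ 2 := by
      refine Asymptotics.IsBigO.of_bound (n * (n * C)) ?_
      filter_upwards [Metric.ball_mem_nhds x hr] with y hy
      rw [Real.norm_eq_abs, Real.norm_of_nonneg (by positivity)]
      exact hest y hy
    have h0 := hO.hasFDerivAt (𝕜 := ℝ) (by norm_num)
    have h1 : HasFDerivAt (fun y => a w x + P6_L (fun i => a (i :: w) x) (y - x))
        (P6_L (fun i => a (i :: w) x)) x := by
      have h2 : HasFDerivAt (fun y : E n => y - x) (ContinuousLinearMap.id ℝ (E n)) x :=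
        (hasFDerivAt_id x).sub_const x
      have h3 := (P6_L (fun i => a (i :: w) x)).hasFDerivAt.comp x h2
      rw [ContinuousLinearMap.comp_id] at h3
      exact h3.const_add (a w x)
    have h4 := h0.add h1
    rw [zero_add] at h4
    refine h4.congr_of_eventuallyEq (Eventually.of_forall fun y => ?_)
    simp only [Pi.add_apply]
    ring
  -- the derivatives of the limit
  set g := a [] with hg
  have hDw : ∀ (w : List (Fin n)), EqOn (Dw w g) (a w) Ω := by
    intro w
    induction w with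
    | nil => exact fun _ _ => rfl
    | cons i w ih =>
      intro x hx
      have h1 : pd i (Dw w g) x = pd i (a w) x := pd_congr_on hΩ ih i hx
      rw [Dw_cons, h1]
      unfold pd
      rw [(hder w x hx).fderiv, P6_L_ee]
  have hsm : ∀ (m : ℕ) (w : List (Fin n)), ContDiffOn ℝ m (a w) Ω := by
    intro m
    induction m with
    | zero =>
      intro w
      rw [Nat.cast_zero, contDiffOn_zero]
      exact fun x hx => (hder w x hx).continuousAt.continuousWithinAt
    | succ m ih =>
      intro w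
      have hcast : ((m + 1 : ℕ) : WithTop ℕ∞) = (m : WithTop ℕ∞) + 1 := by push_cast; rfl
      rw [hcast, contDiffOn_succ_iff_fderiv_of_isOpen hΩ]
      refine ⟨fun x hx => (hder w x hx).differentiableAt.differentiableWithinAt, ?_, ?_⟩
      · intro h
        exact absurd h (by simp)
      · have h1 : ContDiffOn ℝ m (fun x => P6_L (fun i => a (i :: w) x)) Ω := by
          unfold P6_L
          exact ContDiffOn.sum fun i _ => (ih (i :: w)).smul contDiffOn_const
        exact h1.congr fun x hx => (hder w x hx).fderiv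
  refine ⟨g, ?_, fun w x hx => ?_⟩
  · rw [contDiffOn_infty]
    exact fun m => hsm m []
  · rw [hDw w hx]
    exact ha w x hx

end Pool.Agent.GR
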